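import Pool.Agent.H.MP_a2af9e_co.Match

set_option autoImplicit false
set_option linter.unusedSectionVars false

namespace Pool.Agent.H.MP_a2af9e_co

open Finset Equiv Polynomial

variable {n : ℕ}

def io (i : Fin n) : Fin n :=
  if i.val % 2 = 0 then (if h' : i.val + 1 < n then ⟨i.val + 1, h'⟩ else i)
  else ⟨i.val - 1, by omega⟩

theorem io_val (i : Fin n) :
    (io i).val = if i.val % 2 = 0 then (if i.val + 1 < n then i.val + 1 else i.val)
      else i.val - 1 := by
  unfold io
  split_ifs <;> rfl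

theorem io_io (i : Fin n) : io (io i) = i := by
  apply Fin.ext
  have h1 := io_val i
  have h2 := io_val (io i)
  have := i.2
  split_ifs at h1 h2 <;> omega

theorem io_blk (i : Fin n) : (io i).val / 2 = i.val / 2 := by
  have h1 := io_val i
  split_ifs at h1 <;> omega

theorem io_fix {i : Fin n} (h : io i = i) (j : Fin n) : j.val / 2 ≤ i.val / 2 ∧ i.val + 1 = n := by
  have h1 := io_val i
  rw [h] at h1
  have := j.2
  have := i.2
  split_ifs at h1 <;> omega

theorem lt_split (i j : Fin n) : j < i ↔ j.val / 2 < i.val / 2 ∨ (j < io j ∧ i = io j) := by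
  have h1 := io_val j
  have := i.2
  simp only [Fin.lt_def, Fin.ext_iff]
  split_ifs at h1 <;> omega

theorem blk_eq {i j : Fin n} (h : i.val / 2 = j.val / 2) : j = i ∨ j = io i := by
  have h1 := io_val i
  have := j.2
  simp only [Fin.ext_iff]
  split_ifs at h1 <;> omega

def io0 : Perm (Fin n) := Function.Involutive.toPerm io io_io

theorem io0_apply (i : Fin n) : io0 i = io i := rfl

variable (n) in
def E : Finset (Fin n) := univ.filter fun i => i < io i

def piF (J : Finset (Fin n)) (i : Fin n) : Fin n := if i ∈ J ∨ io i ∈ J then io i else i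

theorem piF_piF (J : Finset (Fin n)) (i : Fin n) : piF J (piF J i) = i := by
  unfold piF
  by_cases h : i ∈ J ∨ io i ∈ J
  · simp only [h, if_true, io_io, h.symm]
  · simp only [h, if_false]

def piJ (J : Finset (Fin n)) : Perm (Fin n) := Function.Involutive.toPerm (piF J) (piF_piF J)

theorem piJ_blk (J : Finset (Fin n)) (i : Fin n) : (piJ J i).val / 2 = i.val / 2 := by
  change (piF J i).val / 2 = _
  unfold piF
  split_ifs
  · exact io_blk i
  · rfl

variable (arc : Fin n → Fin n → Prop) [DecidableRel arc]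

def desP (τ : Perm (Fin n)) : ℕ :=
  (univ.filter fun p : Fin n × Fin n => p.2 < p.1 ∧ arc (τ p.1) (τ p.2)).card

def dd (τ : Perm (Fin n)) : ℕ :=
  (univ.filter fun p : Fin n × Fin n => p.2.val / 2 < p.1.val / 2 ∧ arc (τ p.1) (τ p.2)).card

theorem desP_eq (τ : Perm (Fin n)) :
    desP arc τ = dd arc τ + ∑ i ∈ E n, if arc (τ (io i)) (τ i) then 1 else 0 := by
  rw [← card_filter]
  have h : ((E n).filter fun i => arc (τ (io i)) (τ i)).card =
      (univ.filter fun p : Fin n × Fin n =>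
        (p.2 < io p.2 ∧ p.1 = io p.2) ∧ arc (τ p.1) (τ p.2)).card := by
    refine card_nbij' (fun i => (io i, i)) (fun p => p.2) ?_ ?_ ?_ ?_
    · intro i hi
      simpa [E] using hi
    · rintro ⟨i, j⟩ hp
      simp only [coe_filter, mem_univ, true_and, Set.mem_ofPred_eq, E, mem_filter] at hp ⊢
      obtain ⟨⟨h1, rfl⟩, h2⟩ := hp
      exact ⟨h1, h2⟩
    · intro i _
      rfl
    · rintro ⟨i, j⟩ hp
      simp only [coe_filter, mem_univ, true_and, Set.mem_ofPred_eq] at hp
      simp [hp.1.2]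
  rw [h, desP, dd, ← card_union_of_disjoint, ← filter_or]
  · congr 1
    refine filter_congr fun p _ => ?_
    rw [lt_split, or_and_right]
  · rw [disjoint_filter]
    rintro p - ⟨h1, -⟩ ⟨⟨-, h2⟩, -⟩
    rw [h2, io_blk] at h1
    exact lt_irrefl _ h1

theorem dd_piJ (τ : Perm (Fin n)) (J : Finset (Fin n)) : dd arc (τ * piJ J) = dd arc τ := by
  unfold dd
  refine card_equiv ((piJ J).prodCongr (piJ J)) fun p => ?_
  rw [mem_filter, mem_filter]
  simp only [mem_univ, true_and, Perm.mul_apply, Equiv.prodCongr_apply, Prod.map_fst,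
    Prod.map_snd, piJ_blk]

theorem desP_piJ (τ : Perm (Fin n)) {J : Finset (Fin n)} (hJ : J ⊆ E n) :
    (X : ℤ[X]) ^ desP arc (τ * piJ J) = X ^ dd arc τ *
      ((∏ i ∈ J, X ^ (if arc (τ i) (τ (io i)) then 1 else 0)) *
        ∏ i ∈ E n \ J, X ^ (if arc (τ (io i)) (τ i) then 1 else 0)) := by
  rw [desP_eq, dd_piJ, pow_add, ← sum_sdiff hJ, pow_add, ← prod_pow_eq_pow_sum,
    ← prod_pow_eq_pow_sum, mul_comm (∏ i ∈ E n \ J, _)]
  congr 2
  · refine prod_congr rfl fun i hi => ?_
    have e1 : piJ J i = io i := if_pos (Or.inl hi)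
    have e2 : piJ J (io i) = i := by
      change piF J (io i) = i
      unfold piF
      rw [io_io, if_pos (Or.inr hi)]
    simp only [Perm.mul_apply, e1, e2]
  · refine prod_congr rfl fun i hi => ?_
    obtain ⟨h1, h2⟩ := mem_sdiff.1 hi
    have h3 : io i ∉ J := fun h => by
      have a1 := (mem_filter.1 h1).2
      have a2 := (mem_filter.1 (hJ h)).2
      rw [io_io] at a2
      exact lt_asymm a1 a2
    have e1 : piJ J i = i := if_neg (by simp [h2, h3])
    have e2 : piJ J (io i) = io i := by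
      change piF J (io i) = io i
      unfold piF
      rw [io_io, if_neg (by simp [h2, h3])]
    simp only [Perm.mul_apply, e1, e2]

variable {ι : Type} [DecidableEq ι] (part : Fin n → ι)

def mix (τ : Perm (Fin n)) : ℕ := ((E n).filter fun i => part (τ (io i)) ≠ part (τ i)).card

theorem main_id (h1 : ∀ u v, (arc u v ∨ arc v u) ↔ part u ≠ part v)
    (h2 : ∀ u v, arc u v → ¬ arc v u) :
    (2 : ℤ[X]) ^ (E n).card * ∑ τ : Perm (Fin n), X ^ desP arc τ =
      ∑ τ : Perm (Fin n), X ^ dd arc τ * ((1 + X) ^ mix part τ * 2 ^ ((E n).card - mix part τ)) := by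
  have e1 : (2 : ℤ[X]) ^ (E n).card * ∑ τ : Perm (Fin n), X ^ desP arc τ =
      ∑ J ∈ (E n).powerset, ∑ τ : Perm (Fin n), X ^ desP arc (τ * piJ J) := by
    have : ∀ J ∈ (E n).powerset, ∑ τ : Perm (Fin n), (X : ℤ[X]) ^ desP arc (τ * piJ J) =
        ∑ τ : Perm (Fin n), (X : ℤ[X]) ^ desP arc τ := fun J _ =>
      Equiv.sum_comp (Equiv.mulRight (piJ J)) fun τ => (X : ℤ[X]) ^ desP arc τ
    rw [sum_congr rfl this]
    simp
  rw [e1, sum_comm]
  refine sum_congr rfl fun τ _ => ?_
  rw [sum_congr rfl fun J hJ => desP_piJ arc τ (mem_powerset.1 hJ), ← mul_sum, ← prod_add]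
  congr 1
  have e2 : ∀ i ∈ E n, (X : ℤ[X]) ^ (if arc (τ i) (τ (io i)) then 1 else 0) +
      X ^ (if arc (τ (io i)) (τ i) then 1 else 0) =
      if part (τ (io i)) ≠ part (τ i) then 1 + X else 2 := by
    intro i _
    have a1 := h1 (τ (io i)) (τ i)
    have a2 := h2 (τ (io i)) (τ i)
    by_cases c1 : arc (τ i) (τ (io i)) <;> by_cases c2 : arc (τ (io i)) (τ i)
    · exact absurd c1 (a2 c2)
    · rw [if_pos c1, if_neg c2, if_pos (a1.1 (Or.inr c1))]; ring
    · rw [if_neg c1, if_pos c2, if_pos (a1.1 (Or.inl c2))]; ring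
    · rw [if_neg c1, if_neg c2, if_neg (fun h => (a1.2 h).elim c2 c1)]; ring
  rw [prod_congr rfl e2, prod_ite, prod_const, prod_const]
  have := card_filter_add_card_filter_not (s := E n) (fun i => part (τ (io i)) ≠ part (τ i))
  unfold mix
  congr 2
  omega

/-- the matching attached to an ordering -/
def Mt (τ : Perm (Fin n)) : Perm (Fin n) := τ * io0 * τ⁻¹

theorem Mt_apply (τ : Perm (Fin n)) (i : Fin n) : Mt τ (τ i) = τ (io i) := by
  simp [Mt, io0_apply]

theorem Mt_inv (τ : Perm (Fin n)) (v : Fin n) : τ⁻¹ (Mt τ v) = io (τ⁻¹ v) := by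
  simp [Mt, io0_apply]

theorem Mt_Mt (τ : Perm (Fin n)) (v : Fin n) : Mt τ (Mt τ v) = v := by
  simp [Mt, io0_apply, io_io]

theorem X_mix (τ : Perm (Fin n)) : (univ.filter (Xp part (Mt τ))).card =
    2 * mix part τ + (univ.filter fun i : Fin n => io i = i).card := by
  have h : (univ.filter (Xp part (Mt τ))).card =
      (univ.filter fun i => part (τ (io i)) ≠ part (τ i) ∨ io i = i).card := by
    symm
    refine card_equiv τ fun i => ?_
    simp [Xp, Mt_apply]
  have h' : mix part τ = (univ.filter fun i => io i < i ∧ part (τ (io i)) ≠ part (τ i)).card := by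
    unfold mix E
    rw [filter_filter]
    refine card_equiv io0 fun i => ?_
    simp [io0_apply, io_io, ne_comm]
  have h'' : mix part τ = (univ.filter fun i => i < io i ∧ part (τ (io i)) ≠ part (τ i)).card := by
    unfold mix E
    rw [filter_filter]
  rw [h, two_mul]
  conv_rhs => rw [h'']
  nth_rewrite 1 [← h'']
  rw [h', card_filter, card_filter, card_filter, card_filter, ← sum_add_distrib,
    ← sum_add_distrib]
  refine sum_congr rfl fun i _ => ?_
  rcases lt_trichotomy i (io i) with c | c | c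
  · simp [c, c.ne', c.not_gt]
  · simp [← c]
  · simp [c, c.ne, c.not_gt]

theorem fix_le : (univ.filter fun i : Fin n => io i = i).card ≤ 1 := by
  rw [card_le_one]
  intro i hi j hj
  have h1 := (io_fix (mem_filter.1 hi).2 i).2
  have h2 := (io_fix (mem_filter.1 hj).2 j).2
  apply Fin.ext
  omega

theorem Mt_good (τ : Perm (Fin n)) : Mt τ ∈ Good part univ ↔
    ∀ u v, Xp part (Mt τ) u → Xp part (Mt τ) v → part u = part v → u = v := by
  simp only [Good, IsGood, mem_filter, mem_univ, true_and, not_true, false_imp_iff, imp_true_iff,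
    true_imp_iff, Mt_Mt]
  refine ⟨fun h => h.2, fun h => ⟨fun u v hu hv => ?_, h⟩⟩
  have a1 := Mt_inv τ u
  have a2 := Mt_inv τ v
  rw [hu] at a1
  rw [hv] at a2
  exact τ⁻¹.injective (card_le_one.1 fix_le _ (mem_filter.2 ⟨mem_univ _, a1.symm⟩) _
    (mem_filter.2 ⟨mem_univ _, a2.symm⟩))

theorem cyc (M : Perm (Fin n)) (h1 : ∀ v, M (M v) = v) (h2 : ∀ u v, M u = u → M v = v → u = v) :
    M.cycleType = Multiset.replicate (n / 2) 2 := by
  have hp : M ^ 2 = 1 := by
    ext v
    simp [sq, h1]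
  have h3 := Perm.cycleType_of_pow_prime_eq_one hp
  have h4 := M.sum_cycleType
  rw [h3, Multiset.sum_replicate, smul_eq_mul] at h4
  have h5 : (M.supportᶜ).card ≤ 1 := by
    rw [card_le_one]
    intro u hu v hv
    exact h2 u v (by simpa using hu) (by simpa using hv)
  have h6 := card_add_card_compl M.support
  rw [Fintype.card_fin] at h6
  rw [h3]
  congr 1
  omega

theorem exists_Mt {M : Perm (Fin n)} (hM : M ∈ Good part univ) : ∃ τ, Mt τ = M := by
  obtain ⟨h1, -, h3, -⟩ := (mem_filter.1 hM).2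
  have c1 := cyc M h1 fun u v => h3 u (mem_univ _) v (mem_univ _)
  have c2 := cyc (io0 (n := n)) io_io fun u v hu hv =>
    card_le_one.1 fix_le _ (mem_filter.2 ⟨mem_univ _, hu⟩) _ (mem_filter.2 ⟨mem_univ _, hv⟩)
  exact isConj_iff.1 (Perm.isConj_of_cycleType_eq (c2.trans c1.symm))

theorem mix_spec (τ : Perm (Fin n)) : oddParts part / 2 ≤ mix part τ ∧
    (mix part τ = oddParts part / 2 ↔ Mt τ ∈ Good part univ) := by
  have hne : (Good part univ).Nonempty := card_pos.1 (by have := good_odd part univ; omega)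
  obtain ⟨M, hM⟩ := hne
  obtain ⟨τ0, rfl⟩ := exists_Mt part hM
  obtain ⟨a1, a2⟩ := X_card part (Mt τ0) (Mt_Mt τ0)
  obtain ⟨b1, b2⟩ := X_card part (Mt τ) (Mt_Mt τ)
  rw [← Mt_good, X_mix] at a2 b2
  rw [X_mix] at a1 b1
  have a3 := a2.2 hM
  have := fix_le (n := n)
  rw [← b2]
  omega

theorem dd_par (h1 : ∀ u v, (arc u v ∨ arc v u) ↔ part u ≠ part v)
    (h2 : ∀ u v, arc u v → ¬ arc v u) {τ τ' : Perm (Fin n)} (hM : Mt τ ∈ Good part univ)
    (e : Mt τ' = Mt τ) : dd arc τ % 2 = dd arc τ' % 2 := by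
  rw [Mt_good] at hM
  set M := Mt τ with hMdef
  let b : Fin n → ℕ := fun v => (τ⁻¹ v).val / 2
  let b' : Fin n → ℕ := fun v => (τ'⁻¹ v).val / 2
  have hb : ∀ v, b (M v) = b v := fun v => by simp only [b, hMdef, Mt_inv, io_blk]
  have hb' : ∀ v, b' (M v) = b' v := fun v => by simp only [b', ← e, Mt_inv, io_blk]
  have hMM : ∀ v, M (M v) = v := Mt_Mt τ
  have hbb : ∀ u v, b u = b v → b' u = b' v := by
    intro u v h
    rcases blk_eq h with c | c
    · rw [τ⁻¹.injective c]
    · rw [← Mt_inv] at c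
      rw [τ⁻¹.injective c, hb']
  have hbb' : ∀ u v, b' u = b' v → b u = b v := by
    intro u v h
    rcases blk_eq h with c | c
    · rw [τ'⁻¹.injective c]
    · rw [← Mt_inv, e] at c
      rw [τ'⁻¹.injective c, hb]
  have hfix : ∀ u v, M u = u → b v ≤ b u ∧ b' v ≤ b' u := by
    intro u v h
    have a1 := Mt_inv τ u
    have a2 := Mt_inv τ' u
    rw [e] at a2
    rw [← hMdef, h] at a1
    rw [h] at a2
    exact ⟨(io_fix a1.symm _).1, (io_fix a2.symm _).1⟩
  have d1 : ∀ σ : Perm (Fin n), dd arc σ = (univ.filter fun p : Fin n × Fin n =>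
      (σ⁻¹ p.2).val / 2 < (σ⁻¹ p.1).val / 2 ∧ arc p.1 p.2).card := by
    intro σ
    refine card_equiv (σ.prodCongr σ) fun p => ?_
    simp
  have hT := par (univ.filter fun p : Fin n × Fin n =>
    part p.1 ≠ part p.2 ∧ b p.1 < b p.2 ∧ b' p.2 < b' p.1)
    (fun p => if part (M p.1) = part p.1 then (M p.1, p.2) else
      if part (M p.2) = part p.2 then (p.1, M p.2) else (M p.1, p.2)) ?_ ?_
  · rw [(filter_eq_empty_iff (s := univ.filter _)).2, card_empty] at hT
    · have hA : (univ.filter fun p : Fin n × Fin n =>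
          arc p.1 p.2 ∧ b p.2 < b p.1 ∧ b' p.1 < b' p.2).card =
          (univ.filter fun p : Fin n × Fin n =>
            arc p.2 p.1 ∧ b p.1 < b p.2 ∧ b' p.2 < b' p.1).card :=
        card_equiv (Equiv.prodComm _ _) fun p => by simp
      have hB : dd arc τ + dd arc τ' + (univ.filter fun p : Fin n × Fin n =>
            arc p.2 p.1 ∧ b p.1 < b p.2 ∧ b' p.2 < b' p.1).card =
          2 * (univ.filter fun p : Fin n × Fin n =>
            arc p.1 p.2 ∧ b p.2 < b p.1 ∧ b' p.2 < b' p.1).card +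
          (univ.filter fun p : Fin n × Fin n =>
            arc p.1 p.2 ∧ b p.2 < b p.1 ∧ b' p.1 < b' p.2).card +
          (univ.filter fun p : Fin n × Fin n =>
            part p.1 ≠ part p.2 ∧ b p.1 < b p.2 ∧ b' p.2 < b' p.1).card := by
        rw [d1, d1]
        simp only [card_filter, mul_sum, ← sum_add_distrib]
        refine sum_congr rfl fun p _ => ?_
        have a1 := h1 p.1 p.2
        have a2 := h2 p.1 p.2
        have a3 := hbb p.1 p.2
        have a4 := hbb' p.1 p.2
        change ((if b p.2 < b p.1 ∧ _ then 1 else 0) + if b' p.2 < b' p.1 ∧ _ then 1 else 0) + _ = _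
        simp only [← a1]
        by_cases c1 : arc p.1 p.2 <;> by_cases c2 : arc p.2 p.1
        · exact absurd c2 (a2 c1)
        all_goals
          simp only [c1, c2, and_true, true_and, and_false, false_and, if_false, or_false, false_or]
        · split_ifs <;> omega
        · split_ifs <;> omega
        · rfl
      omega
    · rintro ⟨u, v⟩ hp
      obtain ⟨-, c2, c3⟩ := (mem_filter.1 hp).2
      have n1 : M u ≠ u := fun h => absurd (hfix u v h).1 (not_le.2 c2)
      have n2 : M v ≠ v := fun h => absurd (hfix v u h).2 (not_le.2 c3)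
      dsimp only
      split_ifs <;> simp [n1, n2]
  · rintro ⟨u, v⟩ hp
    obtain ⟨c1, c2, c3⟩ := (mem_filter.1 hp).2
    dsimp only at c1 c2 c3 ⊢
    split_ifs with k1 k2 <;> simp only [mem_filter, mem_univ, true_and, hb, hb', c2, c3, and_true]
    · rw [k1]; exact c1
    · rw [k2]; exact c1
    · intro h
      have := hM (M u) v (Or.inl (by rw [hMM]; exact fun h => k1 h.symm)) (Or.inl k2) h
      rw [← this, hb] at c2
      exact lt_irrefl _ c2
  · rintro ⟨u, v⟩ -
    by_cases k1 : part (M u) = part u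
    · simp [k1, hMM]
    · have k1' : ¬ part u = part (M u) := fun h => k1 h.symm
      by_cases k2 : part (M v) = part v
      · simp [k1, k2, hMM]
      · simp [k1, k1', k2, hMM]

theorem sum_ne (h1 : ∀ u v, (arc u v ∨ arc v u) ↔ part u ≠ part v)
    (h2 : ∀ u v, arc u v → ¬ arc v u) :
    ∑ τ ∈ univ.filter (fun τ : Perm (Fin n) => Mt τ ∈ Good part univ),
      (-1 : ℤ) ^ dd arc τ ≠ 0 := by
  rw [← sum_fiberwise_of_maps_to (t := Good part univ) (g := Mt)
    fun τ hτ => (mem_filter.1 hτ).2]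
  set N := (univ.filter fun c : Perm (Fin n) => Mt c = io0).card with hN
  have hN0 : 0 < N := card_pos.2 ⟨1, mem_filter.2 ⟨mem_univ _, by simp [Mt]⟩⟩
  have key : ∀ M ∈ Good part univ, ∃ k : ℤ,
      ∑ τ ∈ (univ.filter (fun τ : Perm (Fin n) => Mt τ ∈ Good part univ)).filter
        (fun τ => Mt τ = M), (-1 : ℤ) ^ dd arc τ = N * (2 * k + 1) := by
    intro M hM
    obtain ⟨τ0, rfl⟩ := exists_Mt part hM
    have c1 : ∀ τ ∈ (univ.filter (fun τ : Perm (Fin n) => Mt τ ∈ Good part univ)).filter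
        (fun τ => Mt τ = Mt τ0), (-1 : ℤ) ^ dd arc τ = (-1) ^ dd arc τ0 := by
      intro τ hτ
      rw [neg_one_pow_eq_pow_mod_two, ← dd_par arc part h1 h2 hM (mem_filter.1 hτ).2,
        ← neg_one_pow_eq_pow_mod_two]
    have c2 : ((univ.filter (fun τ : Perm (Fin n) => Mt τ ∈ Good part univ)).filter
        (fun τ => Mt τ = Mt τ0)).card = N := by
      refine card_equiv (Equiv.mulLeft τ0⁻¹) fun τ => ?_
      simp only [mem_filter, mem_univ, true_and, Equiv.coe_mulLeft]
      constructor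
      · rintro ⟨-, h⟩
        have : Mt (τ0⁻¹ * τ) = τ0⁻¹ * Mt τ * τ0 := by simp [Mt, mul_assoc]
        rw [this, h]
        simp [Mt, mul_assoc]
      · intro h
        have : Mt τ = τ0 * Mt (τ0⁻¹ * τ) * τ0⁻¹ := by simp [Mt, mul_assoc]
        have e : Mt τ = Mt τ0 := by rw [this, h]; rfl
        exact ⟨e ▸ hM, e⟩
    rw [sum_congr rfl c1, sum_const, c2, nsmul_eq_mul]
    rcases neg_one_pow_eq_or ℤ (dd arc τ0) with h | h
    · exact ⟨0, by rw [h]; ring⟩
    · exact ⟨-1, by rw [h]; ring⟩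
  choose! k hk using key
  rw [sum_congr rfl hk, ← mul_sum, sum_add_distrib, ← mul_sum, sum_const, nsmul_eq_mul, mul_one]
  have := good_odd part univ
  refine mul_ne_zero (by exact_mod_cast hN0.ne') ?_
  omega

theorem mult_eq (h1 : ∀ u v, (arc u v ∨ arc v u) ↔ part u ≠ part v)
    (h2 : ∀ u v, arc u v → ¬ arc v u) :
    (∑ τ : Perm (Fin n), (X : ℤ[X]) ^ desP arc τ).rootMultiplicity (-1) = oddParts part / 2 := by
  set k := oddParts part / 2 with hk
  let Q : ℤ[X] := ∑ τ : Perm (Fin n),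
    X ^ dd arc τ * ((1 + X) ^ (mix part τ - k) * 2 ^ ((E n).card - mix part τ))
  have e1 : C ((2 : ℤ) ^ (E n).card) * ∑ τ : Perm (Fin n), (X : ℤ[X]) ^ desP arc τ =
      (X - C (-1)) ^ k * Q := by
    rw [C_pow, show (C 2 : ℤ[X]) = 2 from rfl, main_id arc part h1 h2, mul_sum]
    refine sum_congr rfl fun τ _ => ?_
    have := (mix_spec part τ).1
    rw [show (X - C (-1) : ℤ[X]) = 1 + X by simp [add_comm]]
    conv_lhs => rw [show mix part τ = k + (mix part τ - k) by omega, pow_add]
    rw [show k + (mix part τ - k) = mix part τ by omega]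
    ring
  have e2 : Q.eval (-1) = 2 ^ ((E n).card - k) *
      ∑ τ ∈ univ.filter (fun τ : Perm (Fin n) => Mt τ ∈ Good part univ), (-1 : ℤ) ^ dd arc τ := by
    simp only [Q, eval_finsetSum, eval_mul, eval_pow, eval_X, eval_add, eval_one, eval_ofNat]
    rw [sum_filter, mul_sum]
    refine sum_congr rfl fun τ _ => ?_
    obtain ⟨a1, a2⟩ := mix_spec part τ
    split_ifs with h
    · rw [a2.2 h]; simp [hk, mul_comm]
    · have : mix part τ - k ≠ 0 := fun h' => h (a2.1 (by omega))
      simp [this]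
  have e3 : Q.eval (-1) ≠ 0 := by
    rw [e2]
    exact mul_ne_zero (by positivity) (sum_ne arc part h1 h2)
  have e4 : Q ≠ 0 := fun h => e3 (by rw [h, eval_zero])
  have e5 : (X - C (-1) : ℤ[X]) ^ k * Q ≠ 0 := mul_ne_zero (pow_ne_zero _ (X_sub_C_ne_zero _)) e4
  have e6 := congrArg (rootMultiplicity (-1)) e1
  rw [rootMultiplicity_mul (e1 ▸ e5), rootMultiplicity_mul e5, rootMultiplicity_C,
    rootMultiplicity_X_sub_C_pow, rootMultiplicity_eq_zero e3] at e6
  omega

end Pool.Agent.H.MP_a2af9e_co
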