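import Mathlib

set_option autoImplicit false
set_option linter.unusedSectionVars false

namespace Pool.Agent.H.MP_a2af9e_co

open Finset Equiv

theorem par {α : Type} [DecidableEq α] (T : Finset α) (f : α → α) (h1 : ∀ x ∈ T, f x ∈ T)
    (h2 : ∀ x ∈ T, f (f x) = x) : T.card % 2 = (T.filter fun x => f x = x).card % 2 := by
  have h := card_filter_add_card_filter_not (s := T) (fun x => f x = x)
  have h3 : ∑ _x ∈ T.filter (fun x => ¬ f x = x), (1 : ZMod 2) = 0 := by
    refine sum_involution (fun x _ => f x) (fun _ _ => by decide) ?_ ?_ ?_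
    · intro x hx _
      exact (mem_filter.1 hx).2
    · intro x hx
      obtain ⟨hx1, hx2⟩ := mem_filter.1 hx
      exact mem_filter.2 ⟨h1 x hx1, by rw [h2 x hx1]; exact fun e => hx2 e.symm⟩
    · intro x hx
      exact h2 x (mem_filter.1 hx).1
  rw [sum_const, nsmul_eq_mul, mul_one, ZMod.natCast_eq_zero_iff] at h3
  omega

variable {V ι : Type} [Fintype V] [DecidableEq V] [DecidableEq ι] (part : V → ι)

/-- `v` is unmatched or matched to another part. -/
def Xp (M : Perm V) (v : V) : Prop := part (M v) ≠ part v ∨ M v = v

instance (M : Perm V) (v : V) : Decidable (Xp part M v) := by unfold Xp; infer_instance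

def IsGood (S : Finset V) (M : Perm V) : Prop :=
  (∀ v, M (M v) = v) ∧ (∀ v, v ∉ S → M v = v) ∧ (∀ u ∈ S, ∀ v ∈ S, M u = u → M v = v → u = v) ∧
    ∀ u ∈ S, ∀ v ∈ S, Xp part M u → Xp part M v → part u = part v → u = v

noncomputable instance (S : Finset V) (M : Perm V) : Decidable (IsGood part S M) :=
  Classical.dec _

noncomputable def Good (S : Finset V) : Finset (Perm V) := univ.filter (IsGood part S)

theorem good_step (S : Finset V) {a b : V} (ha : a ∈ S) (hb : b ∈ S) (hab : a ≠ b)
    (H : part a = part b ∨ ∀ u ∈ S, ∀ v ∈ S, part u = part v → u = v) :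
    (Good part S).card % 2 = (Good part ((S.erase a).erase b)).card % 2 := by
  have hsS : ∀ v, swap a b v ∈ S ↔ v ∈ S := by
    intro v
    rw [swap_apply_def]
    split_ifs with h1 h2
    · simp [h1, ha, hb]
    · simp [h2, ha, hb]
    · rfl
  have hsp : part a = part b → ∀ v, part (swap a b v) = part v := by
    intro h v
    rw [swap_apply_def]
    split_ifs with h1 h2
    · rw [h1, h]
    · rw [h2, h]
    · rfl
  rw [par (Good part S) (fun M => swap a b * M * swap a b)]
  · congr 1
    have key : ∀ M : Perm V, (∀ v, M (M v) = v) → M a = b → ∀ v, v ≠ a → v ≠ b →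
        swap a b v = v ∧ M v ≠ a ∧ M v ≠ b := by
      intro M h1 h2 v hva hvb
      refine ⟨swap_apply_of_ne_of_ne hva hvb, fun e => hvb ?_, fun e => hva ?_⟩
      · rw [← h1 v, e, h2]
      · exact M.injective (e.trans h2.symm)
    have key' : ∀ M : Perm V, M a = a → M b = b → ∀ v, v ≠ a → v ≠ b →
        swap a b v = v ∧ M v ≠ a ∧ M v ≠ b := by
      intro M h1 h2 v hva hvb
      exact ⟨swap_apply_of_ne_of_ne hva hvb, fun e => hva (M.injective (e.trans h1.symm)),
        fun e => hvb (M.injective (e.trans h2.symm))⟩
    refine card_nbij' (fun M => M * swap a b) (fun M => M * swap a b) ?_ ?_ ?_ ?_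
    · intro M hM
      simp only [Good, coe_filter, mem_filter, mem_univ, true_and, Set.mem_ofPred_eq] at hM ⊢
      obtain ⟨⟨h1, h2, h3, h4⟩, h5⟩ := hM
      have hMa : M a = b := by
        by_contra hne
        have e : swap a b (M b) = M a := by simpa using congrArg (fun N : Perm V => N a) h5
        by_cases c1 : M b = a
        · exact hne (by rw [← c1, h1])
        by_cases c2 : M b = b
        · rw [c2, swap_apply_right] at e
          exact hab (h3 a ha b hb e.symm c2)
        · rw [swap_apply_of_ne_of_ne c1 c2] at e
          exact hab (M.injective e).symm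
      have hMb : M b = a := by rw [← hMa, h1]
      have k := key M h1 hMa
      have e : ∀ v ∈ (S.erase a).erase b, v ∈ S ∧ (M * swap a b) v = M v := by
        intro v hv
        simp only [mem_erase] at hv
        exact ⟨hv.2.2, by rw [Perm.mul_apply, (k v hv.2.1 hv.1).1]⟩
      refine ⟨fun v => ?_, fun v hv => ?_, fun u hu v hv c1 c2 => ?_, fun u hu v hv c1 c2 c3 => ?_⟩
      · by_cases c1 : v = a
        · simp [c1, hMb]
        by_cases c2 : v = b
        · simp [c2, hMa]
        obtain ⟨k1, k2, k3⟩ := k v c1 c2
        simp only [Perm.mul_apply, k1, swap_apply_of_ne_of_ne k2 k3, h1]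
      · by_cases c1 : v = a
        · simp [c1, hMb]
        by_cases c2 : v = b
        · simp [c2, hMa]
        rw [Perm.mul_apply, (k v c1 c2).1]
        exact h2 v fun h => hv (by simp [c1, c2, h])
      · rw [(e u hu).2] at c1
        rw [(e v hv).2] at c2
        exact h3 u (e u hu).1 v (e v hv).1 c1 c2
      · unfold Xp at c1 c2
        rw [(e u hu).2] at c1
        rw [(e v hv).2] at c2
        exact h4 u (e u hu).1 v (e v hv).1 c1 c2 c3
    · intro M hM
      simp only [Good, coe_filter, mem_filter, mem_univ, true_and, Set.mem_ofPred_eq] at hM ⊢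
      obtain ⟨h1, h2, h3, h4⟩ := hM
      have hMa : M a = a := h2 a (by simp)
      have hMb : M b = b := h2 b (by simp)
      have k := key' M hMa hMb
      have e : ∀ v ∈ S, v ≠ a → v ≠ b → v ∈ (S.erase a).erase b ∧ (M * swap a b) v = M v := by
        intro v hv c1 c2
        exact ⟨by simp [hv, c1, c2], by rw [Perm.mul_apply, (k v c1 c2).1]⟩
      have ea : (M * swap a b) a = b := by simp [hMb]
      have eb : (M * swap a b) b = a := by simp [hMa]
      refine ⟨⟨fun v => ?_, fun v hv => ?_, fun u hu v hv c1 c2 => ?_,
        fun u hu v hv c1 c2 c3 => ?_⟩, ?_⟩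
      · by_cases c1 : v = a
        · rw [c1, ea, eb]
        by_cases c2 : v = b
        · rw [c2, eb, ea]
        obtain ⟨k1, k2, k3⟩ := k v c1 c2
        simp only [Perm.mul_apply, k1, swap_apply_of_ne_of_ne k2 k3, h1]
      · have c1 : v ≠ a := fun e => hv (e ▸ ha)
        have c2 : v ≠ b := fun e => hv (e ▸ hb)
        rw [Perm.mul_apply, (k v c1 c2).1]
        exact h2 v fun h => hv (mem_of_mem_erase (mem_of_mem_erase h))
      · have n1 : ∀ w, (M * swap a b) w = w → w ≠ a ∧ w ≠ b := by
          intro w hw
          refine ⟨fun e => hab ?_, fun e => hab ?_⟩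
          · rw [e, ea] at hw; exact hw.symm
          · rw [e, eb] at hw; exact hw
        obtain ⟨u1, u2⟩ := e u hu (n1 u c1).1 (n1 u c1).2
        obtain ⟨v1, v2⟩ := e v hv (n1 v c2).1 (n1 v c2).2
        exact h3 u u1 v v1 (u2 ▸ c1) (v2 ▸ c2)
      · rcases H with H | H
        · have n1 : ∀ w, Xp part (M * swap a b) w → w ≠ a ∧ w ≠ b := by
            intro w hw
            unfold Xp at hw
            refine ⟨fun e => ?_, fun e => ?_⟩
            · rw [e, ea] at hw
              rcases hw with hw | hw
              · exact hw H.symm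
              · exact hab hw.symm
            · rw [e, eb] at hw
              rcases hw with hw | hw
              · exact hw H
              · exact hab hw
          obtain ⟨u1, u2⟩ := e u hu (n1 u c1).1 (n1 u c1).2
          obtain ⟨v1, v2⟩ := e v hv (n1 v c2).1 (n1 v c2).2
          unfold Xp at c1 c2
          rw [u2] at c1
          rw [v2] at c2
          exact h4 u u1 v v1 c1 c2 c3
        · exact H u hu v hv c3
      · ext v
        by_cases c1 : v = a
        · simp [c1, hMa, hMb]
        by_cases c2 : v = b
        · simp [c2, hMa, hMb]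
        obtain ⟨k1, k2, k3⟩ := k v c1 c2
        simp only [Perm.mul_apply, k1, swap_apply_of_ne_of_ne k2 k3]
    · intro M _
      simp [mul_assoc]
    · intro M _
      simp [mul_assoc]
  · intro M hM
    simp only [Good, mem_filter, mem_univ, true_and] at hM ⊢
    obtain ⟨h1, h2, h3, h4⟩ := hM
    refine ⟨fun v => by simp [h1], fun v hv => ?_, fun u hu v hv c1 c2 => ?_,
      fun u hu v hv c1 c2 c3 => ?_⟩
    · simp only [Perm.mul_apply]
      rw [h2 _ fun h => hv ((hsS v).1 h), swap_apply_self]
    · simp only [Perm.mul_apply, swap_apply_eq_iff] at c1 c2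
      exact (swap a b).injective (h3 _ ((hsS u).2 hu) _ ((hsS v).2 hv) c1 c2)
    · rcases H with H | H
      · have n1 : ∀ w, Xp part (swap a b * M * swap a b) w → Xp part M (swap a b w) := by
          intro w hw
          unfold Xp at hw ⊢
          simp only [Perm.mul_apply, swap_apply_eq_iff, hsp H] at hw ⊢
          exact hw
        exact (swap a b).injective (h4 _ ((hsS u).2 hu) _ ((hsS v).2 hv) (n1 u c1) (n1 v c2)
          (by rw [hsp H, hsp H, c3]))
      · exact H u hu v hv c3
  · intro M _
    simp [mul_assoc]

theorem good_odd (S : Finset V) : (Good part S).card % 2 = 1 := by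
  induction S using Finset.strongInduction with
  | H S ih =>
    by_cases hS : S.card ≤ 1
    · have : Good part S = {1} := by
        rw [card_le_one] at hS
        ext M
        simp only [Good, mem_filter, mem_univ, true_and, mem_singleton]
        constructor
        · rintro ⟨h1, h2, -, -⟩
          ext v
          by_cases hv : v ∈ S
          · by_cases hv' : M v ∈ S
            · exact hS _ hv' _ hv
            · exact M.injective (h2 _ hv')
          · exact h2 v hv
        · rintro rfl
          exact ⟨fun _ => rfl, fun _ _ => rfl, fun u hu v hv _ _ => hS u hu v hv,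
            fun u hu v hv _ _ _ => hS u hu v hv⟩
      rw [this, card_singleton]
    · have : ∃ a ∈ S, ∃ b ∈ S, a ≠ b ∧
          (part a = part b ∨ ∀ u ∈ S, ∀ v ∈ S, part u = part v → u = v) := by
        by_cases H : ∀ u ∈ S, ∀ v ∈ S, part u = part v → u = v
        · obtain ⟨a, ha, b, hb, hab⟩ := one_lt_card.1 (not_le.1 hS)
          exact ⟨a, ha, b, hb, hab, Or.inr H⟩
        · push Not at H
          obtain ⟨a, ha, b, hb, h1, h2⟩ := H
          exact ⟨a, ha, b, hb, h2, Or.inl h1⟩
      obtain ⟨a, ha, b, hb, hab, H⟩ := this
      rw [good_step part S ha hb hab H]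
      exact ih _ (lt_of_le_of_lt (erase_subset _ _) (erase_ssubset ha))

/-- number of parts of odd size -/
def oddParts : ℕ :=
  ((univ.image part).filter fun i => (univ.filter fun v => part v = i).card % 2 = 1).card

theorem X_par (M : Perm V) (h1 : ∀ v, M (M v) = v) (i : ι) :
    (univ.filter fun v => part v = i).card % 2 =
      ((univ.filter (Xp part M)).filter fun v => part v = i).card % 2 := by
  rw [par (univ.filter fun v => part v = i) (fun v => if part (M v) = part v then M v else v)]
  · congr 2
    ext v
    simp only [mem_filter, mem_univ, true_and, Xp]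
    by_cases h : part (M v) = part v <;> simp [h, and_comm]
  · intro v hv
    simp only [mem_filter, mem_univ, true_and] at hv ⊢
    split_ifs with h
    · rw [h, hv]
    · exact hv
  · intro v _
    by_cases h : part (M v) = part v
    · simp [h, h1]
    · simp [h]

theorem X_card (M : Perm V) (h1 : ∀ v, M (M v) = v) :
    oddParts part ≤ (univ.filter (Xp part M)).card ∧
      ((univ.filter (Xp part M)).card ≤ oddParts part ↔
        ∀ u v, Xp part M u → Xp part M v → part u = part v → u = v) := by
  set X := univ.filter (Xp part M) with hX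
  have hsub : (univ.image part).filter (fun i => (univ.filter fun v => part v = i).card % 2 = 1)
      ⊆ X.image part := by
    intro i hi
    have h := (mem_filter.1 hi).2
    rw [X_par part M h1, ← hX] at h
    have : (X.filter fun v => part v = i).Nonempty := card_pos.1 (by omega)
    obtain ⟨v, hv⟩ := this
    exact mem_image.2 ⟨v, (mem_filter.1 hv).1, (mem_filter.1 hv).2⟩
  have h2 := card_le_card hsub
  have h3 : (X.image part).card ≤ X.card := card_image_le
  refine ⟨h2.trans h3, fun h u v hu hv e => ?_, fun h => ?_⟩
  · have : (X.image part).card = X.card := le_antisymm h3 (h.trans h2)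
    exact card_image_iff.1 this (by simpa [hX] using hu) (by simpa [hX] using hv) e
  · have hinj : Set.InjOn part X := fun u hu v hv e =>
      h u v (by simpa [hX] using hu) (by simpa [hX] using hv) e
    rw [← card_image_of_injOn hinj]
    refine card_le_card fun i hi => ?_
    obtain ⟨v, hv, rfl⟩ := mem_image.1 hi
    refine mem_filter.2 ⟨mem_image.2 ⟨v, mem_univ _, rfl⟩, ?_⟩
    rw [X_par part M h1]
    have : (X.filter fun w => part w = part v) = {v} := by
      ext w
      simp only [mem_filter, mem_singleton]
      exact ⟨fun hw => hinj hw.1 hv hw.2, fun e => by rw [e]; exact ⟨hv, rfl⟩⟩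
    rw [this, card_singleton]

end Pool.Agent.H.MP_a2af9e_co
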